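import Pool.Agent.H46.S.Class

/-!
# Exterior powers of subspaces of `K^N` in coordinates

`wed w` is the tensor of the `p × p` minors of `w_1, .. , w_p`, and `Ext W p` is the span of the
tensors `wed w` with `w_i ∈ W`.
-/

namespace Pool.Agent.H46.S

open Submodule

open scoped BigOperators

variable {K : Type} [Field K] {N p : ℕ}

/-- pairing of a tensor with `p` linear forms. -/
def pair (b : Fin p → Fin N → K) : ((Fin p → Fin N) → K) →ₗ[K] K where
  toFun P := ∑ a : Fin p → Fin N, (∏ j, b j (a j)) * P a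
  map_add' P Q := by simp [mul_add, Finset.sum_add_distrib]
  map_smul' c P := by
    simp only [Pi.smul_apply, smul_eq_mul, RingHom.id_apply, Finset.mul_sum]
    exact Finset.sum_congr rfl fun a _ => by ring

/-- CAUCHY-BINET. -/
theorem pair_wed (b : Fin p → Fin N → K) (w : Fin p → Fin N → K) :
    pair b (wed w) = Matrix.det fun i j => ∑ k, b j k * w i k := by
  have h : (Matrix.det fun i j => ∑ k, b j k * w i k) =
      (Matrix.detRowAlternating (R := K) (n := Fin p)).toMultilinearMap
        (fun j => ∑ k : Fin N, fun i => b j k * w i k) := by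
    rw [← Matrix.det_transpose]
    change Matrix.det _ = Matrix.det _
    congr 1
    ext j i
    simp [Matrix.transpose, Finset.sum_apply]
  rw [h, MultilinearMap.map_sum]
  simp only [pair, LinearMap.coe_mk, AddHom.coe_mk]
  refine Finset.sum_congr rfl fun a _ => ?_
  have h2 : (fun j => fun i => b j (a j) * w i (a j)) =
      fun j => b j (a j) • fun i => w i (a j) := by
    ext j i; simp
  change _ = (Matrix.detRowAlternating (R := K) (n := Fin p)).toMultilinearMap
    (fun j => fun i => b j (a j) * w i (a j))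
  rw [h2, MultilinearMap.map_smul_univ]
  congr 1
  change Matrix.det _ = Matrix.det _
  rw [← Matrix.det_transpose]
  rfl

/-- linear forms dual to independent vectors. -/
theorem exists_dual (w : Fin p → Fin N → K) (hw : LinearIndependent K w) :
    ∃ b : Fin p → Fin N → K, ∀ i j, ∑ k, b j k * w i k = if i = j then 1 else 0 := by
  classical
  obtain ⟨g, hg⟩ := (Finsupp.linearCombination K w).exists_leftInverse_of_injective
    (LinearMap.ker_eq_bot.2 hw)
  refine ⟨fun j k => g (Pi.single k 1) j, fun i j => ?_⟩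
  have h1 : g (w i) = Finsupp.single i 1 := by
    have := congrArg (fun f => f (Finsupp.single i 1)) hg
    simpa using this
  have h2 : w i = ∑ k, w i k • (Pi.single k 1 : Fin N → K) := by
    ext l
    simp [Finset.sum_apply, Pi.single_apply]
  have h3 : g (w i) = ∑ k, w i k • g (Pi.single k 1) := by
    conv_lhs => rw [h2]
    simp [map_sum]
  have h4 : (g (w i)) j = ∑ k, g (Pi.single k 1) j * w i k := by
    rw [h3]
    simp [Finsupp.finsetSum_apply, mul_comm]
  rw [← h4, h1, Finsupp.single_apply]

/-- independent vectors have a nonzero exterior product. -/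
theorem wed_ne_zero {p : ℕ} (w : Fin p → Fin N → K) (hw : LinearIndependent K w) : wed w ≠ 0 := by
  classical
  intro h
  obtain ⟨b, hb⟩ := exists_dual w hw
  have h1 := pair_wed b w
  rw [h, map_zero] at h1
  have h2 : Matrix.of (fun i j => ∑ k, b j k * w i k) = (1 : Matrix (Fin p) (Fin p) K) := by
    ext i j
    rw [Matrix.of_apply, hb i j, Matrix.one_apply]
  have h3 : Matrix.det (fun i j => ∑ k, b j k * w i k : Matrix (Fin p) (Fin p) K) = 1 :=
    (congrArg Matrix.det h2).trans Matrix.det_one
  rw [h3] at h1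
  exact one_ne_zero h1.symm

/-- dependent vectors have exterior product zero. -/
theorem wed_eq_zero (w : Fin p → Fin N → K) (hw : ¬ LinearIndependent K w) : wed w = 0 := by
  classical
  ext a
  obtain ⟨g, hg, i, hi⟩ := Fintype.not_linearIndependent_iff.1 hw
  refine Matrix.exists_vecMul_eq_zero_iff.1 ⟨g, fun h => hi (by rw [h]; rfl), ?_⟩
  ext j
  have := congrFun hg (a j)
  simpa [Matrix.vecMul, dotProduct, Finset.sum_apply] using this

theorem wed_ne_zero_iff (w : Fin p → Fin N → K) : wed w ≠ 0 ↔ LinearIndependent K w :=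
  ⟨fun h => by_contra fun h' => h (wed_eq_zero w h'), wed_ne_zero w⟩

/-- change of vectors: `(c w)_1 ∧ .. ∧ (c w)_p = det c (w_1 ∧ .. ∧ w_p)`. -/
theorem wed_mul (c : Fin p → Fin p → K) (w : Fin p → Fin N → K) :
    wed (fun i => ∑ j, c i j • w j) = Matrix.det c • wed w := by
  ext a
  change Matrix.det _ = Matrix.det c * Matrix.det _
  rw [← Matrix.det_mul]
  congr 1
  ext i j
  simp [Matrix.mul_apply, Finset.sum_apply]

theorem wed_mem {W : Submodule K (Fin N → K)} {w : Fin p → Fin N → K} (h : ∀ i, w i ∈ W) :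
    wed w ∈ Ext W p := Submodule.subset_span ⟨w, h, rfl⟩

/-- `Ext` is monotone. -/
theorem Ext_mono {W W' : Submodule K (Fin N → K)} (h : W ≤ W') (p : ℕ) : Ext W p ≤ Ext W' p := by
  refine Submodule.span_mono ?_
  rintro P ⟨w, hw, rfl⟩
  exact ⟨w, fun i => h (hw i), rfl⟩

theorem ExtC_mono [Algebra ℂ K] {W W' : Submodule K (Fin N → K)} (h : W ≤ W') (p : ℕ) :
    ExtC W p ≤ ExtC W' p := fun _ hx => Ext_mono h p hx

/-- `Λ^p W = 0` for `p` greater than the dimension of `W`. -/
theorem Ext_eq_bot (W : Submodule K (Fin N → K)) (p : ℕ) (h : Module.finrank K W < p) :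
    Ext W p = ⊥ := by
  rw [eq_bot_iff, Pool.Agent.H46.S.Ext, Submodule.span_le]
  rintro P ⟨w, hw, rfl⟩
  refine (Submodule.mem_bot K).2 (wed_eq_zero w fun hi => ?_)
  have h1 : LinearIndependent K fun i => (⟨w i, hw i⟩ : W) := by
    refine LinearIndependent.of_comp W.subtype ?_
    exact hi
  have h2 := h1.fintype_card_le_finrank
  rw [Fintype.card_fin] at h2
  omega

/-- the top exterior power of the span of `w_1, .. , w_r`. -/
theorem Ext_span {r : ℕ} (w : Fin r → Fin N → K) :
    Ext (span K (Set.range w)) r = span K {wed w} := by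
  apply le_antisymm
  · rw [Pool.Agent.H46.S.Ext, Submodule.span_le]
    rintro P ⟨v, hv, rfl⟩
    choose c hc using fun i => (Submodule.mem_span_range_iff_exists_fun K).1 (hv i)
    have h1 : v = fun i => ∑ j, c i j • w j := by
      funext i
      exact (hc i).symm
    rw [h1, wed_mul]
    exact Submodule.smul_mem _ _ (Submodule.mem_span_singleton_self _)
  · rw [Submodule.span_singleton_le_iff_mem]
    exact wed_mem fun i => Submodule.subset_span ⟨i, rfl⟩

/-- `Λ^0 W = K`. -/
theorem Ext_zero (W : Submodule K (Fin N → K)) : Ext W 0 = span K {fun _ => 1} := by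
  have h : ∀ w : Fin 0 → Fin N → K, wed w = fun _ => (1 : K) := fun w => by
    ext a
    exact Matrix.det_isEmpty
  rw [Pool.Agent.H46.S.Ext]
  congr 1
  ext P
  constructor
  · rintro ⟨w, -, rfl⟩
    exact h w
  · rintro rfl
    exact ⟨fun i => i.elim0, fun i => i.elim0, (h _).symm⟩

/-- the exterior product of one vector. -/
theorem wed_one (v : Fin N → K) (a : Fin 1 → Fin N) : wed ![v] a = v (a 0) := by
  simp [wed]

theorem wed_one_inj {v v' : Fin N → K} (h : wed ![v] = wed ![v']) : v = v' := by
  ext k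
  have := congrFun h fun _ => k
  simpa [wed_one] using this

/-- `Λ^1 W = W`. -/
theorem mem_Ext_one (W : Submodule K (Fin N → K)) (P : (Fin 1 → Fin N) → K) :
    P ∈ Ext W 1 ↔ ∃ v ∈ W, P = wed ![v] := by
  constructor
  · intro h
    refine Submodule.span_induction ?_ ?_ ?_ ?_ h
    · rintro P ⟨w, hw, rfl⟩
      refine ⟨w 0, hw 0, ?_⟩
      congr 1
      ext i
      fin_cases i
      rfl
    · exact ⟨0, W.zero_mem, by ext a; simp [wed_one]⟩
    · rintro P Q - - ⟨v, hv, rfl⟩ ⟨v', hv', rfl⟩
      exact ⟨v + v', W.add_mem hv hv', by ext a; simp [wed_one]⟩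
    · rintro c P - ⟨v, hv, rfl⟩
      exact ⟨c • v, W.smul_mem c hv, by ext a; simp [wed_one]⟩
  · rintro ⟨v, hv, rfl⟩
    exact wed_mem fun i => by fin_cases i; exact hv

/-- `x_0 w_1 ∧ w_2 + x_1 w_2 ∧ w_0 + x_2 w_0 ∧ w_1`. -/
def psi (w : Fin 3 → Fin N → K) : (Fin 3 → K) →ₗ[K] ((Fin 2 → Fin N) → K) where
  toFun x := x 0 • wed ![w 1, w 2] + x 1 • wed ![w 2, w 0] + x 2 • wed ![w 0, w 1]
  map_add' x y := by
    simp only [Pi.add_apply, add_smul]
    abel
  map_smul' c x := by
    simp only [Pi.smul_apply, smul_eq_mul, mul_smul, smul_add, RingHom.id_apply]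

theorem psi_apply (w : Fin 3 → Fin N → K) (x : Fin 3 → K) :
    psi w x = x 0 • wed ![w 1, w 2] + x 1 • wed ![w 2, w 0] + x 2 • wed ![w 0, w 1] := rfl

/-- every bivector of the span of `w_0, w_1, w_2` is of this form. -/
theorem mem_Ext_two {w : Fin 3 → Fin N → K} {P : (Fin 2 → Fin N) → K}
    (h : P ∈ Ext (span K (Set.range w)) 2) : ∃ x : Fin 3 → K, P =
      x 0 • wed ![w 1, w 2] + x 1 • wed ![w 2, w 0] + x 2 • wed ![w 0, w 1] := by
  have h1 : Ext (span K (Set.range w)) 2 ≤ LinearMap.range (psi w) := by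
    rw [Pool.Agent.H46.S.Ext, Submodule.span_le]
    rintro P ⟨v, hv, rfl⟩
    choose c hc using fun i => (Submodule.mem_span_range_iff_exists_fun K).1 (hv i)
    refine ⟨![c 0 1 * c 1 2 - c 0 2 * c 1 1, c 0 2 * c 1 0 - c 0 0 * c 1 2,
      c 0 0 * c 1 1 - c 0 1 * c 1 0], ?_⟩
    have h1 : v = fun i => ∑ j, c i j • w j := by
      funext i
      exact (hc i).symm
    rw [psi_apply, h1]
    ext a
    simp only [wed, Matrix.det_fin_two, Fin.sum_univ_three, Pi.add_apply, Pi.smul_apply,
      smul_eq_mul, Matrix.cons_val_zero, Matrix.cons_val_one, Matrix.cons_val]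
    ring
  obtain ⟨x, hx⟩ := h1 h
  exact ⟨x, hx.symm⟩

theorem psi_mem (w : Fin 3 → Fin N → K) (x : Fin 3 → K) :
    psi w x ∈ Ext (span K (Set.range w)) 2 := by
  have h : ∀ i, w i ∈ span K (Set.range w) := fun i => Submodule.subset_span ⟨i, rfl⟩
  rw [psi_apply]
  refine Submodule.add_mem _ (Submodule.add_mem _ ?_ ?_) ?_ <;>
  · refine Submodule.smul_mem _ _ (wed_mem fun i => ?_)
    fin_cases i <;> exact h _

theorem range_psi (w : Fin 3 → Fin N → K) :
    LinearMap.range (psi w) = Ext (span K (Set.range w)) 2 := by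
  apply le_antisymm
  · rintro P ⟨x, rfl⟩
    exact psi_mem w x
  · intro P hP
    obtain ⟨x, hx⟩ := mem_Ext_two hP
    exact ⟨x, hx.symm⟩

/-- the coordinates are unique. -/
theorem psi_injective (w : Fin 3 → Fin N → K) (hw : LinearIndependent K w) :
    Function.Injective (psi w) := by
  classical
  rw [← LinearMap.ker_eq_bot, eq_bot_iff]
  intro x hx
  obtain ⟨b, hb⟩ := exists_dual w hw
  have h0 : psi w x = 0 := hx
  have h : ∀ j k : Fin 3, pair ![b j, b k] (psi w x) = 0 := fun j k => by rw [h0, map_zero]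
  have e0 := h 1 2
  have e1 := h 2 0
  have e2 := h 0 1
  simp only [psi_apply, map_add, map_smul, pair_wed, Matrix.det_fin_two, smul_eq_mul,
    Matrix.cons_val_zero, Matrix.cons_val_one, hb] at e0 e1 e2
  simp at e0 e1 e2
  refine (Submodule.mem_bot K).2 ?_
  ext i
  fin_cases i
  · simpa using e0
  · simpa using e1
  · simpa using e2

/-- two vectors of `K^3` with cross product zero are proportional. -/
theorem cross_zero {x y : Fin 3 → K} (hx : x ≠ 0) (h : crossProduct x y = 0) :
    ∃ c : K, y = c • x := by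
  have h0 := congrFun h 0
  have h1 := congrFun h 1
  have h2 := congrFun h 2
  simp only [cross_apply, Matrix.cons_val_zero, Matrix.cons_val_one, Matrix.cons_val,
    Pi.zero_apply] at h0 h1 h2
  have : ∃ i, x i ≠ 0 := by
    by_contra hc
    push Not at hc
    exact hx (funext hc)
  obtain ⟨i, hi⟩ := this
  refine ⟨y i / x i, ?_⟩
  ext j
  rw [Pi.smul_apply, smul_eq_mul, div_mul_eq_mul_div, eq_div_iff hi]
  fin_cases i <;> fin_cases j <;> simp only [Fin.zero_eta, Fin.mk_one, Fin.reduceFinMk] <;>
    first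
      | ring1
      | linear_combination h0
      | linear_combination -h0
      | linear_combination h1
      | linear_combination -h1
      | linear_combination h2
      | linear_combination -h2

/-- the vector with coordinates `x` in the independent vectors `w`. -/
theorem comb_eq_zero {r : ℕ} {w : Fin r → Fin N → K} (hw : LinearIndependent K w)
    {x : Fin r → K} (h : ∑ i, x i • w i = 0) : x = 0 := by
  ext i
  exact Fintype.linearIndependent_iff.1 hw x h i

end Pool.Agent.H46.S
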